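import Mathlib

set_option autoImplicit false

namespace Pool.Agent.X223.ADN

open Finset

/-- entry-level estimate -/
theorem entry (u a : ℝ) (hu : 0 ≤ u) (ha : 0 < a) :
    |u - (if 1/2 ≤ u then 1 else 0)| ≤
      4 * (u*(1-u)^2) + a * (if 1/2 ≤ u then 1 else 0) + (u*(1-u)^2)/(2*a) := by
  have hq0 : 0 ≤ u*(1-u)^2 := mul_nonneg hu (sq_nonneg _)
  split_ifs with h
  · have hq : (1/2)*(1-u)^2 ≤ u*(1-u)^2 := by nlinarith [sq_nonneg (1-u)]
    have h2 : |u-1|^2 = (1-u)^2 := by rw [sq_abs]; ring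
    have key : a + (1-u)^2/(4*a) - |u-1| = (2*a - |u-1|)^2/(4*a) := by
      rw [← h2]; field_simp; ring
    have h3 : 0 ≤ (2*a - |u-1|)^2/(4*a) := by positivity
    have h4 : (1-u)^2/(4*a) ≤ (u*(1-u)^2)/(2*a) := by
      rw [div_le_div_iff₀ (by positivity) (by positivity)]
      nlinarith
    linarith
  · push Not at h
    have h5 : (1/4 : ℝ) ≤ (1-u)^2 := by nlinarith
    have h6 : u ≤ 4*(u*(1-u)^2) := by nlinarith [mul_le_mul_of_nonneg_left h5 hu]
    have h7 : 0 ≤ (u*(1-u)^2)/(2*a) := by positivity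
    rw [sub_zero, abs_of_nonneg hu]
    linarith

theorem sum_est {n : ℕ} (u : Fin n → ℝ) (hu : ∀ i, 0 ≤ u i) :
    ∃ N : ℕ, (N:ℝ) ≤ 2 * ∑ i, u i ∧ ∀ a > 0, |∑ i, u i - N| ≤
      4 * (∑ i, u i*(1-u i)^2) + a * N + (∑ i, u i*(1-u i)^2)/(2*a) := by
  classical
  refine ⟨∑ i, (if 1/2 ≤ u i then 1 else 0), ?_, ?_⟩
  · push_cast
    rw [Finset.mul_sum]
    apply Finset.sum_le_sum
    intro i _
    split_ifs with h
    · linarith
    · linarith [hu i]
  · intro a ha
    push_cast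
    rw [← Finset.sum_sub_distrib]
    refine (Finset.abs_sum_le_sum_abs _ _).trans ?_
    rw [Finset.mul_sum, Finset.mul_sum, Finset.sum_div, ← Finset.sum_add_distrib,
      ← Finset.sum_add_distrib]
    apply Finset.sum_le_sum
    intro i _
    exact entry (u i) a (hu i) ha

theorem lip {ι : Type} [Fintype ι] (G : MvPolynomial ι ℚ) :
    ∃ (K D : ℕ), ∀ (v w : ι → ℝ) (δ : ℝ), (∀ i, 0 ≤ v i) → (∀ i, 0 ≤ w i) →
      (∀ i, |v i - w i| ≤ δ) → 0 ≤ δ →
      |MvPolynomial.aeval v G| ≤ K * (1 + ∑ i, v i + ∑ i, w i)^D ∧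
      |MvPolynomial.aeval v G - MvPolynomial.aeval w G| ≤
        K * (1 + ∑ i, v i + ∑ i, w i)^D * δ := by
  induction G using MvPolynomial.induction_on with
  | C a =>
    refine ⟨⌈|(a:ℝ)|⌉₊, 0, fun v w δ hv hw hd hδ => ?_⟩
    simp only [MvPolynomial.aeval_C, eq_ratCast, pow_zero, mul_one, sub_self, abs_zero]
    exact ⟨Nat.le_ceil _, by positivity⟩
  | add p q hp hq =>
    obtain ⟨K1, D1, h1⟩ := hp
    obtain ⟨K2, D2, h2⟩ := hq
    refine ⟨K1 + K2, D1 + D2, fun v w δ hv hw hd hδ => ?_⟩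
    obtain ⟨a1, b1⟩ := h1 v w δ hv hw hd hδ
    obtain ⟨a2, b2⟩ := h2 v w δ hv hw hd hδ
    have hV : 0 ≤ ∑ i, v i := Finset.sum_nonneg fun i _ => hv i
    have hW : 0 ≤ ∑ i, w i := Finset.sum_nonneg fun i _ => hw i
    generalize hS : 1 + ∑ i, v i + ∑ i, w i = S at *
    have hS1 : 1 ≤ S := by linarith
    have e1 : S^D1 ≤ S^(D1+D2) := pow_le_pow_right₀ hS1 (by omega)
    have e2 : S^D2 ≤ S^(D1+D2) := pow_le_pow_right₀ hS1 (by omega)
    have k1 : (0:ℝ) ≤ K1 := by positivity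
    have k2 : (0:ℝ) ≤ K2 := by positivity
    simp only [map_add]
    push_cast
    constructor
    · refine (abs_add_le _ _).trans ?_
      nlinarith [mul_le_mul_of_nonneg_left e1 k1, mul_le_mul_of_nonneg_left e2 k2]
    · rw [add_sub_add_comm]
      refine (abs_add_le _ _).trans ?_
      have f1 := mul_le_mul_of_nonneg_right (mul_le_mul_of_nonneg_left e1 k1) hδ
      have f2 := mul_le_mul_of_nonneg_right (mul_le_mul_of_nonneg_left e2 k2) hδ
      nlinarith
  | mul_X p j hp =>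
    obtain ⟨K, D, h⟩ := hp
    refine ⟨2*K, D+1, fun v w δ hv hw hd hδ => ?_⟩
    obtain ⟨a1, b1⟩ := h v w δ hv hw hd hδ
    have hd' : ∀ i, |w i - v i| ≤ δ := fun i => by rw [abs_sub_comm]; exact hd i
    obtain ⟨a2, b2⟩ := h w v δ hw hv hd' hδ
    have hV : 0 ≤ ∑ i, v i := Finset.sum_nonneg fun i _ => hv i
    have hW : 0 ≤ ∑ i, w i := Finset.sum_nonneg fun i _ => hw i
    have hvj : v j ≤ ∑ i, v i := Finset.single_le_sum (fun i _ => hv i) (Finset.mem_univ j)
    rw [show 1 + ∑ i, w i + ∑ i, v i = 1 + ∑ i, v i + ∑ i, w i by ring] at a2 b2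
    have hvS : v j ≤ 1 + ∑ i, v i + ∑ i, w i := by linarith
    generalize hS : 1 + ∑ i, v i + ∑ i, w i = S at *
    have hS1 : 1 ≤ S := by linarith
    have k1 : (0:ℝ) ≤ K := by positivity
    have hSD : 0 ≤ S^D := by positivity
    have hKS : 0 ≤ K * S^D := by positivity
    simp only [map_mul, MvPolynomial.aeval_X]
    push_cast
    have m1 : |MvPolynomial.aeval v p * v j| ≤ K * S^D * S := by
      rw [abs_mul, abs_of_nonneg (hv j)]
      exact mul_le_mul a1 hvS (hv j) hKS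
    constructor
    · refine m1.trans ?_
      rw [pow_succ]
      nlinarith [mul_nonneg hKS (by linarith : (0:ℝ) ≤ S)]
    · have e : MvPolynomial.aeval v p * v j - MvPolynomial.aeval w p * w j =
          (MvPolynomial.aeval v p - MvPolynomial.aeval w p) * v j +
            MvPolynomial.aeval w p * (v j - w j) := by ring
      rw [e]
      refine (abs_add_le _ _).trans ?_
      rw [abs_mul, abs_mul, abs_of_nonneg (hv j)]
      have n1 : |MvPolynomial.aeval v p - MvPolynomial.aeval w p| * v j ≤ K * S^D * δ * S :=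
        mul_le_mul b1 hvS (hv j) (by positivity)
      have n2 : |MvPolynomial.aeval w p| * |v j - w j| ≤ K * S^D * δ :=
        mul_le_mul a2 (hd j) (abs_nonneg _) hKS
      have n3 : K * S^D * δ ≤ K * S^D * δ * S := by
        have : 0 ≤ K * S^D * δ := by positivity
        nlinarith
      rw [pow_succ]
      nlinarith

theorem core {ι : Type} [Fintype ι] (G : MvPolynomial ι ℚ)
    (hG : ∀ N : ι → ℕ, ∃ z : ℤ, MvPolynomial.aeval (fun i => (N i : ℝ)) G = (z:ℝ)) (i0 : ι) :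
    ∃ K D : ℕ, ∀ (s : ℕ),
      (¬ ∃ N : ι → ℕ, N i0 = s ∧ MvPolynomial.aeval (fun i => (N i:ℝ)) G = 0) →
      ∀ (v q : ι → ℝ), (∀ i, 0 ≤ v i) → (∀ i, 0 ≤ q i) →
      (∀ i, ∃ N : ℕ, (N:ℝ) ≤ 2*v i ∧ ∀ a > 0, |v i - N| ≤ 4*q i + a*N + q i/(2*a)) →
      1/2 < (MvPolynomial.aeval v G)^2 + (v i0 - s)^2 + K * (1+∑ i, v i)^D * ∑ i, q i := by
  obtain ⟨K0, D0, hl⟩ := lip G
  refine ⟨64 * (K0+1)^2 * 9^D0, 2*D0+1, fun s hs v q hv hq hN => ?_⟩
  choose N hN1 hN2 using hN
  have hV : 0 ≤ ∑ i, v i := Finset.sum_nonneg fun i _ => hv i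
  set S := 1 + ∑ i, v i with hS
  have hS1 : 1 ≤ S := by linarith
  have hQ : 0 ≤ ∑ i, q i := Finset.sum_nonneg fun i _ => hq i
  set M : ℝ := (K0+1) * (3*S)^D0 with hM
  have hM1 : 1 ≤ M := by
    have : (1:ℝ) ≤ (3*S)^D0 := one_le_pow₀ (by linarith)
    have k : (1:ℝ) ≤ K0 + 1 := by
      have : (0:ℝ) ≤ K0 := by positivity
      linarith
    nlinarith
  set δ : ℝ := 1/(4*M) with hδ
  have hδ0 : 0 < δ := by positivity
  have hδ1 : 4*δ ≤ 1 := by
    rw [hδ]
    have : 4 * (1/(4*M)) = 1/M := by field_simp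
    rw [this, div_le_one (by linarith)]
    exact hM1
  have hMδ : M * δ = 1/4 := by rw [hδ]; field_simp
  have hlast : 0 ≤ ((64 * (K0+1)^2 * 9^D0 : ℕ):ℝ) * S^(2*D0+1) * ∑ i, q i := by positivity
  by_cases hall : ∀ i, |v i - N i| ≤ δ
  · obtain ⟨z, hz⟩ := hG N
    have hNs : ∑ i, (N i : ℝ) ≤ 2 * ∑ i, v i := by
      rw [Finset.mul_sum]; exact Finset.sum_le_sum fun i _ => hN1 i
    have hN0 : 0 ≤ ∑ i, (N i:ℝ) := Finset.sum_nonneg fun i _ => by positivity
    obtain ⟨-, hb⟩ := hl v (fun i => (N i:ℝ)) δ hv (fun i => by positivity) hall hδ0.le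
    have hb' : |MvPolynomial.aeval v G - (z:ℝ)| ≤ 1/4 := by
      rw [← hz]
      refine hb.trans ?_
      rw [← hMδ]
      refine mul_le_mul_of_nonneg_right ?_ hδ0.le
      rw [hM]
      have : (1 + ∑ i, v i + ∑ i, (N i:ℝ))^D0 ≤ (3*S)^D0 := by
        apply pow_le_pow_left₀ (by linarith)
        linarith
      have k : (0:ℝ) ≤ K0 := by positivity
      have : (K0:ℝ) * (1 + ∑ i, v i + ∑ i, (N i:ℝ))^D0 ≤ K0 * (3*S)^D0 :=
        mul_le_mul_of_nonneg_left this k
      have : 0 ≤ (3*S)^D0 := by positivity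
      nlinarith
    by_cases hz0 : z = 0
    · have hne : N i0 ≠ s := fun h => hs ⟨N, h, by rw [hz, hz0]; simp⟩
      have h1 : (1:ℝ) ≤ |(N i0:ℝ) - s| := by
        have : (1:ℤ) ≤ |(N i0:ℤ) - s| := Int.one_le_abs (by omega)
        exact_mod_cast this
      have h2 := hall i0
      have h3 : 3/4 ≤ |v i0 - s| := by
        have h4 : |(N i0:ℝ) - s| ≤ |v i0 - s| + |v i0 - N i0| := by
          have : (N i0:ℝ) - s = (v i0 - s) - (v i0 - N i0) := by ring
          rw [this]; exact abs_sub _ _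
        linarith
      have h5 : 9/16 ≤ (v i0 - s)^2 := by
        rw [← sq_abs]; nlinarith [abs_nonneg (v i0 - s)]
      nlinarith [sq_nonneg (MvPolynomial.aeval v G)]
    · have h1 : (1:ℝ) ≤ |(z:ℝ)| := by
        have : (1:ℤ) ≤ |z| := Int.one_le_abs hz0
        exact_mod_cast this
      have h3 : 3/4 ≤ |MvPolynomial.aeval v G| := by
        have h4 : |(z:ℝ)| ≤ |MvPolynomial.aeval v G| + |MvPolynomial.aeval v G - z| := by
          have : (z:ℝ) = MvPolynomial.aeval v G - (MvPolynomial.aeval v G - z) := by ring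
          nth_rewrite 1 [this]; exact abs_sub _ _
        linarith
      have h5 : 9/16 ≤ (MvPolynomial.aeval v G)^2 := by
        rw [← sq_abs]; nlinarith [abs_nonneg (MvPolynomial.aeval v G)]
      nlinarith [sq_nonneg (v i0 - s)]
  · push Not at hall
    obtain ⟨i, hi⟩ := hall
    have hNi : (0:ℝ) ≤ N i := by positivity
    have h1 := hN2 i (δ/(2*(N i+1))) (by positivity)
    have h2 : δ/(2*(N i+1)) * N i ≤ δ/2 := by
      rw [div_mul_eq_mul_div, div_le_div_iff₀ (by positivity) (by positivity)]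
      nlinarith
    have h3 : q i/(2*(δ/(2*(N i+1)))) = q i * (N i+1)/δ := by
      field_simp
    rw [h3] at h1
    have h4 : δ/2 < q i * (4 + (N i+1)/δ) := by
      have : q i * (4 + (N i+1)/δ) = 4*q i + q i * (N i+1)/δ := by ring
      rw [this]; linarith
    have h5 : δ^2 < 2 * q i * (4*δ + (N i+1)) := by
      have := mul_lt_mul_of_pos_right h4 hδ0
      have e : q i * (4 + (N i+1)/δ) * δ = q i * (4*δ + (N i+1)) := by
        field_simp
      rw [e] at this
      nlinarith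
    have hvi : v i ≤ ∑ i, v i := Finset.single_le_sum (fun i _ => hv i) (Finset.mem_univ i)
    have hqi : q i ≤ ∑ i, q i := Finset.single_le_sum (fun i _ => hq i) (Finset.mem_univ i)
    have h6 : δ^2 < 4 * S * ∑ i, q i := by
      have a1 : 4*δ + (N i+1) ≤ 2 * S := by
        have := hN1 i
        linarith
      have a2 : 2 * q i * (4*δ + (N i+1)) ≤ 2 * q i * (2*S) :=
        mul_le_mul_of_nonneg_left a1 (by linarith [hq i])
      have a3 : q i * S ≤ (∑ i, q i) * S := mul_le_mul_of_nonneg_right hqi (by linarith)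
      nlinarith
    have h7 : 1 < ((64 * (K0+1)^2 * 9^D0 : ℕ):ℝ) * S^(2*D0+1) * ∑ i, q i := by
      have e : ((64 * (K0+1)^2 * 9^D0 : ℕ):ℝ) * S^(2*D0+1) * ∑ i, q i =
          (16*M^2) * (4 * S * ∑ i, q i) := by
        rw [hM, mul_pow, ← pow_mul, mul_pow]
        have : (9:ℝ)^D0 = 3^(D0*2) := by rw [mul_comm, pow_mul]; norm_num
        push_cast
        rw [this]
        ring
      rw [e]
      have : (16*M^2) * δ^2 = 1 := by
        have : (16*M^2) * δ^2 = (4*(M*δ))^2 := by ring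
        rw [this, hMδ]; norm_num
      calc (1:ℝ) = (16*M^2) * δ^2 := this.symm
        _ < (16*M^2) * (4 * S * ∑ i, q i) := by
          apply mul_lt_mul_of_pos_left h6; positivity
    nlinarith [sq_nonneg (MvPolynomial.aeval v G), sq_nonneg (v i0 - s)]

end Pool.Agent.X223.ADN
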