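import Mathlib
import Pool.Agent.X223.ADN.Core

set_option autoImplicit false

namespace Pool.Agent.X223.ADN

open Finset

/-- The truncation `f^(n)` of the symmetric function `f = g(p_1,p_2,...)`: the variable `k` of `g`
stands for the power sum `p_{k+1}`. -/
noncomputable def trunc (g : MvPolynomial ℕ ℚ) (n : ℕ) : MvPolynomial (Fin n) ℝ :=
  MvPolynomial.aeval (fun k => MvPolynomial.psum (Fin n) ℝ (k+1)) g

/-- evaluation of `g(p_1,p_2,...)` at a real point -/
noncomputable def E {n : ℕ} (x : Fin n → ℝ) : MvPolynomial ℕ ℚ →ₐ[ℚ] ℝ :=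
  MvPolynomial.aeval (fun k => ∑ i, x i ^ (k+1))

theorem eval_trunc (g : MvPolynomial ℕ ℚ) {n : ℕ} (x : Fin n → ℝ) :
    MvPolynomial.eval x (trunc g n) = E x g := by
  induction g using MvPolynomial.induction_on with
  | C a =>
    simp [trunc, E]
  | add p q hp hq =>
    simp only [trunc, E, map_add] at hp hq ⊢
    rw [hp, hq]
  | mul_X p j hp =>
    simp only [trunc, E, map_mul, MvPolynomial.aeval_X] at hp ⊢
    rw [hp]
    congr 1
    simp [MvPolynomial.psum]

/-- the element of `ℚ[p_1,p_2,...]` given by the sum of the values of a univariate polynomial -/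
noncomputable def lin (u : Polynomial ℚ) : MvPolynomial ℕ ℚ :=
  ∑ k ∈ range u.natDegree, MvPolynomial.C (u.coeff (k+1)) * MvPolynomial.X k

theorem E_lin (u : Polynomial ℚ) (h0 : u.coeff 0 = 0) {n : ℕ} (x : Fin n → ℝ) :
    E x (lin u) = ∑ i, Polynomial.aeval (x i) u := by
  simp only [Polynomial.aeval_eq_sum_range, E, lin, map_sum, map_mul, MvPolynomial.aeval_X,
    MvPolynomial.aeval_C]
  simp only [Finset.sum_range_succ', h0, zero_smul, add_zero]
  rw [Finset.sum_comm]
  refine Finset.sum_congr rfl fun k _ => ?_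
  rw [Finset.mul_sum]
  refine Finset.sum_congr rfl fun i _ => ?_
  rw [Algebra.smul_def]

/-- indicator-type polynomials at the levels `0` and `lev i` -/
theorem exists_ind {ι : Type} [Fintype ι] [DecidableEq ι] (lev : ι → ℕ)
    (hl : Function.Injective lev) (h0 : ∀ i, lev i ≠ 0) :
    ∃ v : ι → Polynomial ℚ, (∀ l, (v l).eval 0 = 0) ∧
      ∀ l j, (v l).eval (lev j : ℚ) = if j = l then 1 else 0 := by
  classical
  let node : Option ι → ℚ := fun o => o.elim 0 (fun i => (lev i : ℚ))
  have hnode : Set.InjOn node (univ : Finset (Option ι)) := by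
    intro a _ b _ hab
    rcases a with _ | a <;> rcases b with _ | b
    · rfl
    · simp only [node, Option.elim] at hab
      exact absurd (by exact_mod_cast hab.symm) (h0 b)
    · simp only [node, Option.elim] at hab
      exact absurd (by exact_mod_cast hab) (h0 a)
    · simp only [node, Option.elim] at hab
      have : lev a = lev b := by exact_mod_cast hab
      rw [hl this]
  refine ⟨fun l => Lagrange.interpolate univ node (fun o => if o = some l then 1 else 0), ?_, ?_⟩
  · intro l
    have := Lagrange.eval_interpolate_at_node (s := (univ : Finset (Option ι))) (v := node)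
      (fun o => if o = some l then (1:ℚ) else 0) hnode (mem_univ none)
    simpa [node] using this
  · intro l j
    have := Lagrange.eval_interpolate_at_node (s := (univ : Finset (Option ι))) (v := node)
      (fun o => if o = some l then (1:ℚ) else 0) hnode (mem_univ (some j))
    simpa [node] using this

theorem family {ι : Type} [Fintype ι] (G : MvPolynomial ι ℚ)
    (hG : ∀ N : ι → ℕ, ∃ z : ℤ, MvPolynomial.aeval (fun i => (N i : ℝ)) G = (z:ℝ)) (i0 : ι) :
    ∃ α β : MvPolynomial ℕ ℚ, ∀ s : ℕ, 0 < s →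
      ((¬ ∃ N : ι → ℕ, N i0 = s ∧ MvPolynomial.aeval (fun i => (N i:ℝ)) G = 0) →
        ∀ (n : ℕ) (x : Fin n → ℝ),
          0 < E x (α - MvPolynomial.C (2*(s:ℚ)) * β + MvPolynomial.C ((s:ℚ)^2))) ∧
      ((∃ N : ι → ℕ, N i0 = s ∧ MvPolynomial.aeval (fun i => (N i:ℝ)) G = 0) →
        ∃ (n : ℕ) (x : Fin n → ℝ), x ≠ 0 ∧
          E x (α - MvPolynomial.C (2*(s:ℚ)) * β + MvPolynomial.C ((s:ℚ)^2)) < 0) := by
  classical
  obtain ⟨K, D, hcore⟩ := core G hG i0
  let lev : ι → ℕ := fun i => (Fintype.equivFin ι i : ℕ) + 1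
  have hlev : Function.Injective lev := by
    intro a b hab
    have : (Fintype.equivFin ι a : ℕ) = Fintype.equivFin ι b := by simpa [lev] using hab
    exact (Fintype.equivFin ι).injective (Fin.ext this)
  have hlev0 : ∀ i, lev i ≠ 0 := fun i => by simp [lev]
  obtain ⟨v, hv0, hv⟩ := exists_ind lev hlev hlev0
  let u : ι → Polynomial ℚ := fun l => (v l)^2
  let w : ι → Polynomial ℚ := fun l => u l * (1 - u l)^2
  have hu0 : ∀ l, (u l).coeff 0 = 0 := fun l => by
    rw [Polynomial.coeff_zero_eq_eval_zero]; simp [u, hv0]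
  have hw0 : ∀ l, (w l).coeff 0 = 0 := fun l => by
    rw [Polynomial.coeff_zero_eq_eval_zero]; simp [w, u, hv0]
  let α : MvPolynomial ℕ ℚ := (MvPolynomial.aeval (fun l => lin (u l)) G)^2 + (lin (u i0))^2
    - MvPolynomial.C (1/2) + MvPolynomial.C (K:ℚ) * (1 + ∑ l, lin (u l))^D * ∑ l, lin (w l)
  have hE : ∀ (s n : ℕ) (x : Fin n → ℝ),
      E x (α - MvPolynomial.C (2*(s:ℚ)) * lin (u i0) + MvPolynomial.C ((s:ℚ)^2)) =
      (MvPolynomial.aeval (fun l => ∑ i, Polynomial.aeval (x i) (u l)) G)^2 +
        ((∑ i, Polynomial.aeval (x i) (u i0)) - s)^2 +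
        K * (1 + ∑ l, ∑ i, Polynomial.aeval (x i) (u l))^D *
          (∑ l, ∑ i, Polynomial.aeval (x i) (w l)) - 1/2 := by
    intro s n x
    have hC : ∀ a : ℚ, E x (MvPolynomial.C a) = (a:ℝ) := fun a => by simp [E]
    simp only [α, map_add, map_sub, map_mul, map_pow, map_sum, map_one, hC]
    rw [MvPolynomial.comp_aeval_apply]
    simp only [E_lin _ (hu0 _), E_lin _ (hw0 _)]
    push_cast
    ring
  refine ⟨α, lin (u i0), fun s hs => ⟨?_, ?_⟩⟩
  · intro hno n x
    rw [hE]
    have hmain := hcore s hno (fun l => ∑ i, Polynomial.aeval (x i) (u l))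
      (fun l => ∑ i, Polynomial.aeval (x i) (w l)) ?_ ?_ ?_
    · simp only at hmain
      linarith
    · intro l
      refine Finset.sum_nonneg fun i _ => ?_
      simp only [u, map_pow]; positivity
    · intro l
      refine Finset.sum_nonneg fun i _ => ?_
      simp only [w, u, map_mul, map_pow, map_sub, map_one]; positivity
    · intro l
      have := sum_est (fun i => Polynomial.aeval (x i) (u l)) (fun i => by
        simp only [u, map_pow]; positivity)
      simpa only [w, map_mul, map_pow, map_sub, map_one] using this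
  · rintro ⟨N, hN0, hN⟩
    let e := (Fintype.equivFin (Σ l, Fin (N l))).symm
    let n := Fintype.card (Σ l, Fin (N l))
    let x : Fin n → ℝ := fun i => (lev (e i).1 : ℝ)
    have hsum : ∀ p : Polynomial ℚ, ∑ i, Polynomial.aeval (x i) p =
        ∑ l, (N l : ℝ) * ((p.eval (lev l : ℚ) : ℚ) : ℝ) := by
      intro p
      have h1 : ∑ i, Polynomial.aeval (x i) p =
          ∑ a : (Σ l, Fin (N l)), Polynomial.aeval ((lev a.1 : ℝ)) p :=
        Equiv.sum_comp e (fun a => Polynomial.aeval ((lev a.1 : ℝ)) p)
      rw [h1, Fintype.sum_sigma]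
      refine Finset.sum_congr rfl fun l _ => ?_
      simp only [Finset.sum_const, Finset.card_univ, Fintype.card_fin, nsmul_eq_mul]
      congr 1
      have := Polynomial.aeval_algebraMap_apply ℝ ((lev l : ℕ) : ℚ) p
      simpa using this
    have hu : ∀ l, ∑ i, Polynomial.aeval (x i) (u l) = N l := by
      intro l
      rw [hsum, Finset.sum_eq_single l]
      · simp [u, hv]
      · intro j _ hj
        simp [u, hv, hj]
      · intro h
        exact absurd (mem_univ l) h
    have hw : ∀ l, ∑ i, Polynomial.aeval (x i) (w l) = 0 := by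
      intro l
      rw [hsum]
      refine Finset.sum_eq_zero fun j _ => ?_
      simp only [w, u, Polynomial.eval_mul, Polynomial.eval_pow, Polynomial.eval_sub,
        Polynomial.eval_one, hv]
      split_ifs <;> simp
    refine ⟨n, x, ?_, ?_⟩
    · intro hx
      have hpos : 0 < N i0 := by omega
      have := congrFun hx (e.symm ⟨i0, ⟨0, hpos⟩⟩)
      simp only [x, Equiv.apply_symm_apply, Pi.zero_apply] at this
      exact hlev0 i0 (by exact_mod_cast this)
    · rw [hE]
      simp only [hu, hw]
      rw [hN, hN0]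
      norm_num

end Pool.Agent.X223.ADN
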