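import Mathlib
import Pool.Agent.Helper344.DPRM
import Pool.Agent.X223.ADN.Red

set_option autoImplicit false

namespace Pool.Agent.X223.ADN

open Finset

/-- `f = g(p_1,p_2,...)` is any-dimensional non-negative. -/
def NonNeg (g : MvPolynomial ℕ ℚ) : Prop :=
  ∀ (n : ℕ) (x : Fin n → ℝ), 0 ≤ MvPolynomial.eval x (trunc g n)

/-- `f = g(p_1,p_2,...)` is homogeneous. -/
def Homog (g : MvPolynomial ℕ ℚ) : Prop := ∃ d, ∀ n, (trunc g n).IsHomogeneous d

/-- `f = g(p_1,p_2,...)` is any-dimensional positive. -/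
def Pos (g : MvPolynomial ℕ ℚ) : Prop :=
  (Homog g → ∀ (n : ℕ) (x : Fin n → ℝ), x ≠ 0 → 0 < MvPolynomial.eval x (trunc g n)) ∧
  (¬ Homog g → ∀ (n : ℕ) (x : Fin n → ℝ), 0 < MvPolynomial.eval x (trunc g n))

/-- Inputs: finite lists of terms `((a,b,c),e)`, meaning `(a-b)/(c+1) * p_1^(e_0) p_2^(e_1) ...`. -/
abbrev Code := List ((ℕ × ℕ × ℕ) × List ℕ)

/-- the monomial `X_k^(e_0) X_{k+1}^(e_1) ...` -/
noncomputable def mon : ℕ → List ℕ → MvPolynomial ℕ ℚ
  | _, [] => 1
  | k, e :: es => MvPolynomial.X k ^ e * mon (k+1) es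

/-- the polynomial coded by a list of terms -/
noncomputable def decode (L : Code) : MvPolynomial ℕ ℚ :=
  (L.map (fun t => MvPolynomial.C (((t.1.1 : ℚ) - t.1.2.1) / (t.1.2.2 + 1)) * mon 0 t.2)).sum

theorem decode_append (L M : Code) : decode (L ++ M) = decode L + decode M := by
  simp [decode]

theorem mon_range (s : ℕ → ℕ) (n k : ℕ) :
    mon k ((List.range' k n).map s) = ∏ j ∈ range n, MvPolynomial.X (k+j) ^ s (k+j) := by
  induction n generalizing k with
  | zero => simp [mon]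
  | succ n ih =>
    rw [List.range'_succ, List.map_cons, mon, ih, Finset.prod_range_succ']
    rw [mul_comm]
    congr 1
    refine Finset.prod_congr rfl fun j _ => ?_
    rw [show k + 1 + j = k + (j+1) by ring]

theorem exists_mon (s : ℕ →₀ ℕ) : ∃ e, mon 0 e = MvPolynomial.monomial s 1 := by
  obtain ⟨n, hn⟩ : ∃ n, s.support ⊆ range n := by
    refine ⟨s.support.sup id + 1, fun i hi => ?_⟩
    have := Finset.le_sup (f := id) hi
    simp only [id] at this
    simp only [mem_range]; omega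
  refine ⟨(List.range' 0 n).map s, ?_⟩
  rw [mon_range]
  rw [MvPolynomial.monomial_eq, MvPolynomial.C_1, one_mul,
    Finsupp.prod_of_support_subset s hn _ (fun i _ => by simp)]
  simp

theorem exists_coeff (q : ℚ) : ∃ a b c : ℕ, ((a:ℚ) - b)/(c+1) = q := by
  refine ⟨q.num.toNat, (-q.num).toNat, q.den - 1, ?_⟩
  have h1 : ((q.num.toNat : ℤ) : ℚ) - ((-q.num).toNat : ℤ) = q.num := by
    rw [← Int.cast_sub, Int.toNat_sub_toNat_neg]
  have h2 : ((q.den - 1 : ℕ) : ℚ) + 1 = q.den := by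
    rw [Nat.cast_sub q.den_pos]; simp
  rw [h2]
  simp only [Int.cast_natCast] at h1
  rw [h1, Rat.num_div_den]

theorem decode_surj (g : MvPolynomial ℕ ℚ) : ∃ L : Code, decode L = g := by
  induction g using MvPolynomial.induction_on' with
  | monomial s q =>
    obtain ⟨e, he⟩ := exists_mon s
    obtain ⟨a, b, c, h⟩ := exists_coeff q
    refine ⟨[((a,b,c),e)], ?_⟩
    simp only [decode, List.map_cons, List.map_nil, List.sum_cons, List.sum_nil, add_zero]
    rw [h, he, MvPolynomial.C_mul_monomial, mul_one]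
  | add p q hp hq =>
    obtain ⟨L, rfl⟩ := hp
    obtain ⟨M, rfl⟩ := hq
    exact ⟨L ++ M, decode_append L M⟩

/-- the reduction map -/
def red (A B : Code) (t : ℕ) : Code :=
  (A ++ B.map (fun τ => ((2*(t+1)*τ.1.2.1, 2*(t+1)*τ.1.1, τ.1.2.2), τ.2))) ++
    [(((t+1)*(t+1), 0, 0), [])]

theorem decode_red (A B : Code) (t : ℕ) :
    decode (red A B t) = decode A - MvPolynomial.C (2*((t+1 : ℕ):ℚ)) * decode B
      + MvPolynomial.C (((t+1 : ℕ):ℚ)^2) := by
  have h1 : decode (B.map (fun τ => ((2*(t+1)*τ.1.2.1, 2*(t+1)*τ.1.1, τ.1.2.2), τ.2))) =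
      - MvPolynomial.C (2*((t+1 : ℕ):ℚ)) * decode B := by
    simp only [decode]
    induction B with
    | nil => simp
    | cons τ B ih =>
      simp only [List.map_cons, List.sum_cons, mul_add]
      congr 1
      rw [← mul_assoc, ← MvPolynomial.C_neg, ← MvPolynomial.C_mul]
      congr 2
      push_cast
      ring
  rw [red, decode_append, decode_append, h1]
  have h2 : decode [(((t+1)*(t+1), 0, 0), [])] = MvPolynomial.C (((t+1 : ℕ):ℚ)^2) := by
    simp only [decode, List.map_cons, List.map_nil, List.sum_cons, List.sum_nil, add_zero, mon,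
      mul_one]
    congr 1
    push_cast
    ring
  rw [h2]
  ring

theorem red_computable (A B : Code) : Computable (red A B) := by
  apply Primrec.to_comp
  have hT : Primrec₂ (fun (t : ℕ) (τ : (ℕ × ℕ × ℕ) × List ℕ) =>
      (((2*(t+1)*τ.1.2.1, 2*(t+1)*τ.1.1, τ.1.2.2), τ.2) : (ℕ × ℕ × ℕ) × List ℕ)) := by
    have ht : Primrec (fun p : ℕ × ((ℕ × ℕ × ℕ) × List ℕ) => 2 * (p.1 + 1)) :=
      Primrec.nat_mul.comp (Primrec.const 2) (Primrec.succ.comp Primrec.fst)
    have h1 : Primrec (fun p : ℕ × ((ℕ × ℕ × ℕ) × List ℕ) => p.2.1) :=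
      Primrec.fst.comp Primrec.snd
    have h2 : Primrec (fun p : ℕ × ((ℕ × ℕ × ℕ) × List ℕ) => p.2.1.1) := Primrec.fst.comp h1
    have h3 : Primrec (fun p : ℕ × ((ℕ × ℕ × ℕ) × List ℕ) => p.2.1.2.1) :=
      Primrec.fst.comp (Primrec.snd.comp h1)
    have h4 : Primrec (fun p : ℕ × ((ℕ × ℕ × ℕ) × List ℕ) => p.2.1.2.2) :=
      Primrec.snd.comp (Primrec.snd.comp h1)
    have h5 : Primrec (fun p : ℕ × ((ℕ × ℕ × ℕ) × List ℕ) => p.2.2) :=
      Primrec.snd.comp Primrec.snd
    exact Primrec.pair (Primrec.pair (Primrec.nat_mul.comp ht h3)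
      (Primrec.pair (Primrec.nat_mul.comp ht h2) h4)) h5
  have h6 : Primrec (fun t : ℕ => ([(((t+1)*(t+1), 0, 0), [])] : Code)) := by
    refine Primrec.list_cons.comp (Primrec.pair (Primrec.pair
      (Primrec.nat_mul.comp Primrec.succ Primrec.succ) (Primrec.const (0,0)))
      (Primrec.const [])) (Primrec.const [])
  exact Primrec.list_append.comp (Primrec.list_append.comp (Primrec.const A)
    (Primrec.list_map (Primrec.const B) hT)) h6

theorem poly_mv {α : Type} (p : Poly α) : ∃ G : MvPolynomial α ℚ, ∀ N : α → ℕ,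
    MvPolynomial.aeval (fun i => (N i : ℝ)) G = ((p N : ℤ) : ℝ) := by
  refine Poly.induction (C := fun p => ∃ G : MvPolynomial α ℚ, ∀ N : α → ℕ,
    MvPolynomial.aeval (fun i => (N i : ℝ)) G = ((p N : ℤ) : ℝ)) ?_ ?_ ?_ ?_ p
  · intro i; exact ⟨MvPolynomial.X i, fun N => by simp⟩
  · intro n; exact ⟨MvPolynomial.C (n:ℚ), fun N => by simp⟩
  · rintro f g ⟨F, hF⟩ ⟨G, hG⟩; exact ⟨F - G, fun N => by simp [hF, hG]⟩
  · rintro f g ⟨F, hF⟩ ⟨G, hG⟩; exact ⟨F * G, fun N => by simp [hF, hG]⟩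

/-- a halting-type problem on the natural numbers -/
def K (t : ℕ) : Prop := (Nat.Partrec.Code.eval (Denumerable.ofNat Nat.Partrec.Code t) 0).Dom

theorem K_not : ¬ ComputablePred K := by
  intro h
  refine ComputablePred.halting_problem 0 ?_
  refine ComputablePred.computable_of_manyOneReducible
    (p := fun c : Nat.Partrec.Code => (Nat.Partrec.Code.eval c 0).Dom) (q := K)
    ⟨Encodable.encode, Computable.encode, fun c => ?_⟩ h
  simp [K]

theorem K_re : REPred (fun s : ℕ => K (s-1)) := by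
  have h0 := ComputablePred.halting_problem_re 0
  have hc : Computable (fun s : ℕ => Denumerable.ofNat Nat.Partrec.Code (s-1)) :=
    (Computable.ofNat Nat.Partrec.Code).comp (Primrec.pred.to_comp)
  exact Partrec.comp h0 hc

theorem source : ∃ (ι : Type) (_ : Fintype ι) (G : MvPolynomial ι ℚ) (i0 : ι),
    (∀ N : ι → ℕ, ∃ z : ℤ, MvPolynomial.aeval (fun i => (N i : ℝ)) G = (z:ℝ)) ∧
    ∀ t, K t ↔ ∃ N : ι → ℕ, N i0 = t+1 ∧ MvPolynomial.aeval (fun i => (N i:ℝ)) G = 0 := by
  obtain ⟨δ, _, p, hp⟩ := Pool.Agent.Helper344.DP.finite_dummies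
    (Pool.Agent.Helper344.DP.dprm K_re)
  obtain ⟨G, hG⟩ := poly_mv p
  refine ⟨Unit ⊕ δ, inferInstance, G, Sum.inl (), fun N => ⟨p N, hG N⟩, fun t => ?_⟩
  have h1 := hp (fun _ => t+1)
  simp only [Set.mem_ofPred_eq, Nat.add_sub_cancel] at h1
  rw [h1]
  constructor
  · rintro ⟨z, hz⟩
    refine ⟨Sum.elim (fun _ => t+1) z, rfl, ?_⟩
    rw [hG, hz]; simp
  · rintro ⟨N, hN, h⟩
    refine ⟨fun i => N (Sum.inr i), ?_⟩
    rw [hG] at h
    have e : Sum.elim (fun _ => t+1) (fun i => N (Sum.inr i)) = N := by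
      funext i
      rcases i with i | i
      · exact hN.symm
      · rfl
    rw [e]
    exact_mod_cast h

theorem main : (¬ ComputablePred (fun L : Code => NonNeg (decode L))) ∧
    ¬ ComputablePred (fun L : Code => Pos (decode L)) := by
  obtain ⟨ι, _, G, i0, hG, hK⟩ := source
  obtain ⟨α, β, hf⟩ := family G hG i0
  obtain ⟨A, rfl⟩ := decode_surj α
  obtain ⟨B, rfl⟩ := decode_surj β
  have key : ∀ t, (¬ K t → ∀ (n : ℕ) (x : Fin n → ℝ),
        0 < MvPolynomial.eval x (trunc (decode (red A B t)) n)) ∧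
      (K t → ∃ (n : ℕ) (x : Fin n → ℝ), x ≠ 0 ∧
        MvPolynomial.eval x (trunc (decode (red A B t)) n) < 0) := by
    intro t
    simp only [eval_trunc, decode_red]
    rw [hK t]
    exact hf (t+1) (Nat.succ_pos t)
  have k1 : ∀ t, K t ↔ ¬ NonNeg (decode (red A B t)) := by
    intro t
    constructor
    · intro h hn
      obtain ⟨n, x, -, hx⟩ := (key t).2 h
      exact absurd (hn n x) (not_le.2 hx)
    · intro h
      by_contra hK'
      exact h fun n x => ((key t).1 hK' n x).le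
  have k2 : ∀ t, K t ↔ ¬ Pos (decode (red A B t)) := by
    intro t
    constructor
    · intro h hp
      obtain ⟨n, x, hx0, hx⟩ := (key t).2 h
      by_cases hh : Homog (decode (red A B t))
      · exact absurd (hp.1 hh n x hx0) (not_lt.2 hx.le)
      · exact absurd (hp.2 hh n x) (not_lt.2 hx.le)
    · intro h
      by_contra hK'
      exact h ⟨fun _ n x _ => (key t).1 hK' n x, fun _ n x => (key t).1 hK' n x⟩
  constructor
  · intro h
    refine K_not ?_
    have h1 : ComputablePred (fun t => NonNeg (decode (red A B t))) :=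
      ComputablePred.computable_of_manyOneReducible
        ⟨red A B, red_computable A B, fun t => Iff.rfl⟩ h
    exact h1.not.of_eq fun t => (k1 t).symm
  · intro h
    refine K_not ?_
    have h1 : ComputablePred (fun t => Pos (decode (red A B t))) :=
      ComputablePred.computable_of_manyOneReducible
        ⟨red A B, red_computable A B, fun t => Iff.rfl⟩ h
    exact h1.not.of_eq fun t => (k2 t).symm

end Pool.Agent.X223.ADN
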